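import Mathlib

set_option autoImplicit false
open Filter Topology Set Metric

namespace Pool.Agent.H.MP_471c81_an

variable {E : Type*} [NormedAddCommGroup E] [NormedSpace ℝ E]

theorem sem_cont (p : Seminorm ℝ E) {C : ℝ} (hp : ∀ x, p x ≤ C * ‖x‖) : Continuous p := by
  refine (LipschitzWith.of_dist_le_mul (K := C.toNNReal) fun x y => ?_).continuous
  rw [Real.dist_eq, dist_eq_norm]
  refine (abs_sub_map_le_sub p x y).trans ((hp _).trans ?_)
  exact mul_le_mul_of_nonneg_right (Real.le_coe_toNNReal C) (norm_nonneg _)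

theorem hb (p : Seminorm ℝ E) {C : ℝ} (hp : ∀ x, p x ≤ C * ‖x‖) (x : E) :
    ∃ f : StrongDual ℝ E, f x = p x ∧ ∀ y, f y ≤ p y := by
  by_cases hx : x = 0
  · exact ⟨0, by simp [hx], fun y => by simp⟩
  obtain ⟨g, h1, h2⟩ := exists_extension_of_le_sublinear (LinearPMap.mkSpanSingleton x (p x) hx) p
    (fun c hc y => by rw [map_smul_eq_mul, Real.norm_of_nonneg hc.le]) (map_add_le_add p) (by
      rintro ⟨y, hy⟩
      obtain ⟨c, rfl⟩ := Submodule.mem_span_singleton.1 hy
      rw [LinearPMap.mkSpanSingleton'_apply]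
      simp only [RingHom.id_apply, smul_eq_mul, map_smul_eq_mul, Real.norm_eq_abs]
      exact mul_le_mul_of_nonneg_right (le_abs_self c) (apply_nonneg p x))
  refine ⟨g.mkContinuous C fun y => ?_, ?_, h2⟩
  · rw [Real.norm_eq_abs, abs_le]
    have a1 := h2 (-y)
    rw [map_neg, map_neg_eq_map] at a1
    constructor <;> linarith [h2 y, hp y]
  · have := h1 ⟨x, Submodule.mem_span_singleton_self x⟩
    rw [LinearPMap.mkSpanSingleton_apply] at this
    exact this

theorem norm_le_of {f : StrongDual ℝ E} {C : ℝ} (hC : 0 ≤ C) (h : ∀ y, f y ≤ C * ‖y‖) :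
    ‖f‖ ≤ C := by
  refine f.opNorm_le_bound hC fun y => ?_
  rw [Real.norm_eq_abs, abs_le]
  have a1 := h (-y)
  rw [map_neg, norm_neg] at a1
  constructor <;> linarith [h y]

theorem supSem (A : Set (StrongDual ℝ E)) (hne : A.Nonempty) (hsym : ∀ f ∈ A, -f ∈ A) (M : ℝ)
    (hM : ∀ f ∈ A, ‖f‖ ≤ M) : ∃ p : Seminorm ℝ E, (∀ f ∈ A, ∀ x, f x ≤ p x) ∧
      ∀ x b, (∀ f ∈ A, f x ≤ b) → p x ≤ b := by
  have hb : ∀ x, BddAbove ((fun f : StrongDual ℝ E => f x) '' A) := fun x =>
    ⟨M * ‖x‖, by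
      rintro _ ⟨f, hf, rfl⟩
      exact (le_abs_self _).trans ((f.le_opNorm x).trans
        (mul_le_mul_of_nonneg_right (hM f hf) (norm_nonneg _)))⟩
  have h1 : ∀ f ∈ A, ∀ x, f x ≤ sSup ((fun f : StrongDual ℝ E => f x) '' A) := fun f hf x =>
    le_csSup (hb x) ⟨f, hf, rfl⟩
  have h2 : ∀ x b, (∀ f ∈ A, f x ≤ b) → sSup ((fun f : StrongDual ℝ E => f x) '' A) ≤ b :=
    fun x b h => csSup_le (hne.image _) (by rintro _ ⟨f, hf, rfl⟩; exact h f hf)
  refine ⟨Seminorm.ofSMulLE (fun x => sSup ((fun f : StrongDual ℝ E => f x) '' A)) ?_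
    (fun x y => h2 _ _ fun f hf => ?_) (fun r x => h2 _ _ fun f hf => ?_), h1, h2⟩
  · obtain ⟨f, hf⟩ := hne
    exact le_antisymm (h2 _ _ fun f _ => by simp) (by simpa using h1 f hf 0)
  · rw [map_add]
    exact add_le_add (h1 f hf x) (h1 f hf y)
  · rw [map_smul, smul_eq_mul, Real.norm_eq_abs]
    rcases le_total 0 r with hr | hr
    · rw [abs_of_nonneg hr]
      exact mul_le_mul_of_nonneg_left (h1 f hf x) hr
    · rw [abs_of_nonpos hr]
      have := mul_le_mul_of_nonneg_left (h1 _ (hsym f hf) x) (neg_nonneg.2 hr)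
      simpa using this

theorem sandwich (P : E → ℝ) (f : StrongDual ℝ E) (x : E) (h1 : ∀ y, f y ≤ P y) (h2 : P x = f x)
    (h3 : ∀ ε > 0, ∀ᶠ h in 𝓝 (0 : E), P (x + h) ≤ f (x + h) + ε * ‖h‖) : HasFDerivAt P f x := by
  rw [hasFDerivAt_iff_isLittleO_nhds_zero, Asymptotics.isLittleO_iff]
  intro ε hε
  filter_upwards [h3 ε hε] with h hh
  have := h1 (x + h)
  rw [map_add] at hh this
  rw [Real.norm_eq_abs, abs_of_nonneg (by linarith)]
  linarith

theorem upper (P : E → ℝ) (f : StrongDual ℝ E) (x : E) (h : HasFDerivAt P f x) (h2 : P x = f x) :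
    ∀ ε > 0, ∀ᶠ h in 𝓝 (0 : E), P (x + h) ≤ f (x + h) + ε * ‖h‖ := by
  rw [hasFDerivAt_iff_isLittleO_nhds_zero, Asymptotics.isLittleO_iff] at h
  intro ε hε
  filter_upwards [h hε] with h hh
  have := (le_abs_self _).trans hh
  rw [map_add]
  linarith

theorem smulyan (A : Set (StrongDual ℝ E)) (M : ℝ) (hM : ∀ f ∈ A, ‖f‖ ≤ M) (p : E → ℝ)
    (hp1 : ∀ f ∈ A, ∀ x, f x ≤ p x) (hp2 : ∀ x b, (∀ f ∈ A, f x ≤ b) → p x ≤ b) (x : E)
    (f0 : StrongDual ℝ E) (h0 : f0 ∈ A) (h1 : p x = f0 x)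
    (h2 : ∀ ε > 0, ∃ δ > 0, ∀ f ∈ A, p x - δ ≤ f x → ‖f - f0‖ ≤ ε) : HasFDerivAt p f0 x := by
  refine sandwich p f0 x (hp1 f0 h0) h1 fun ε hε => ?_
  obtain ⟨δ, hδ, h3⟩ := h2 ε hε
  have hM0 : 0 ≤ M := (norm_nonneg _).trans (hM f0 h0)
  filter_upwards [ball_mem_nhds (0 : E) (show 0 < δ / (2 * M + 1) by positivity)] with h hh
  rw [mem_ball_zero_iff, lt_div_iff₀ (by positivity)] at hh
  refine hp2 _ _ fun f hf => ?_
  rw [map_add, map_add]
  have hn := norm_nonneg h
  by_cases hc : p x - δ ≤ f x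
  · have a1 := (le_abs_self _).trans (((f - f0).le_opNorm h).trans
      (mul_le_mul_of_nonneg_right (h3 f hf hc) hn))
    have a2 := hp1 f hf x
    rw [_root_.sub_apply] at a1
    linarith
  · have a1 := (le_abs_self _).trans ((f.le_opNorm h).trans
      (mul_le_mul_of_nonneg_right (hM f hf) hn))
    have a2 := (neg_le_abs _).trans ((f0.le_opNorm h).trans
      (mul_le_mul_of_nonneg_right (hM f0 h0) hn))
    push Not at hc
    nlinarith [mul_nonneg hε.le hn]

theorem smulyan' (N : E → ℝ) (x : E) (hN : DifferentiableAt ℝ N x) (f0 : StrongDual ℝ E)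
    (h0 : ∀ y, f0 y ≤ N y) (h1 : N x = f0 x) :
    ∀ ε > 0, ∃ δ > 0, ∀ f : StrongDual ℝ E, (∀ y, f y ≤ N y) → N x - δ ≤ f x → ‖f - f0‖ ≤ ε := by
  have key : ∀ ε > 0, ∃ δ > 0, ∀ f : StrongDual ℝ E, (∀ y, f y ≤ N y) → N x - δ ≤ f x →
      ‖f - fderiv ℝ N x‖ ≤ ε := by
    intro ε hε
    have h := hN.hasFDerivAt
    rw [hasFDerivAt_iff_isLittleO_nhds_zero, Asymptotics.isLittleO_iff] at h
    obtain ⟨r, hr, h2⟩ := Metric.eventually_nhds_iff_ball.1 (h (show 0 < ε / 2 by linarith))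
    refine ⟨ε / 2 * (r / 2), by positivity, fun f hf1 hf2 => norm_le_of hε.le fun y => ?_⟩
    by_cases hy : y = 0
    · simp [hy]
    have hn : 0 < ‖y‖ := norm_pos_iff.2 hy
    have e : ‖(r / 2 / ‖y‖) • y‖ = r / 2 := by
      rw [norm_smul, Real.norm_of_nonneg (by positivity)]
      field_simp
    have a1 := (le_abs_self _).trans (h2 ((r / 2 / ‖y‖) • y) (by rw [mem_ball_zero_iff, e]; linarith))
    have a2 := hf1 (x + (r / 2 / ‖y‖) • y)
    rw [e, map_smul] at a1
    rw [map_add, map_smul] at a2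
    have a3 : (r / 2 / ‖y‖) * (f y - fderiv ℝ N x y) ≤ ε * (r / 2) := by
      simp only [smul_eq_mul] at a1 a2
      linarith
    rw [_root_.sub_apply]
    rw [div_mul_eq_mul_div, div_le_iff₀ hn] at a3
    nlinarith
  intro ε hε
  obtain ⟨δ, hδ, h⟩ := key (ε / 2) (by linarith)
  refine ⟨δ, hδ, fun f a1 a2 => ?_⟩
  have b1 := h f a1 a2
  have b2 := h f0 h0 (by linarith)
  have := norm_sub_le (f - fderiv ℝ N x) (f0 - fderiv ℝ N x)
  rw [sub_sub_sub_cancel_right] at this
  linarith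

theorem sep_of_dual [TopologicalSpace.SeparableSpace (StrongDual ℝ E)] :
    TopologicalSpace.SeparableSpace E := by
  obtain ⟨g, hg⟩ := TopologicalSpace.exists_dense_seq (StrongDual ℝ E)
  have hx : ∀ f : StrongDual ℝ E, ∃ x : E, ‖x‖ ≤ 1 ∧ ‖f‖ / 2 ≤ ‖f x‖ := fun f => by
    by_cases h : f = 0
    · exact ⟨0, by simp, by simp [h]⟩
    · obtain ⟨x, h1, h2⟩ := f.exists_lt_apply_of_lt_opNorm (half_lt_self (norm_pos_iff.2 h))
      exact ⟨x, h1.le, h2.le⟩
  choose x hx1 hx2 using hx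
  have h := ((Set.countable_range fun n => x (g n)).isSeparable.span (R := ℝ)).closure
  rw [← TopologicalSpace.isSeparable_univ_iff]
  refine h.mono fun z _ => ?_
  by_contra hz
  obtain ⟨f, u, a1, a2⟩ := geometric_hahn_banach_closed_point
    (Submodule.convex _).closure isClosed_closure hz
  have a0 : 0 < u := by simpa using a1 0 (subset_closure (Submodule.zero_mem _))
  have a3 : ∀ n, f (x (g n)) = 0 := fun n => by
    by_contra hc
    have := a1 ((u / f (x (g n))) • x (g n))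
      (subset_closure (Submodule.smul_mem _ _ (Submodule.subset_span ⟨n, rfl⟩)))
    rw [map_smul, smul_eq_mul, div_mul_cancel₀ _ hc] at this
    exact lt_irrefl _ this
  have hf : 0 < ‖f‖ := norm_pos_iff.2 fun h => by
    rw [h] at a2
    simp at a2
    linarith
  obtain ⟨n, hn⟩ := hg.exists_dist_lt f (show 0 < ‖f‖ / 3 by linarith)
  rw [dist_eq_norm] at hn
  have b1 := hx2 (g n)
  have b2 := (f - g n).le_opNorm (x (g n))
  rw [_root_.sub_apply, a3, zero_sub, norm_neg] at b2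
  have b3 := mul_le_mul_of_nonneg_left (hx1 (g n)) (norm_nonneg (f - g n))
  have b4 := norm_add_le (f - g n) (g n)
  rw [sub_add_cancel] at b4
  linarith

theorem bartle {A B Z : Type*} [NormedAddCommGroup A] [NormedSpace ℝ A] [CompleteSpace A]
    [NormedAddCommGroup B] [NormedSpace ℝ B] [MetricSpace Z] (T : A →L[ℝ] B)
    (hT : ∀ b, ∃ a, T a = b ∧ ‖a‖ ≤ ‖b‖) (f : BoundedContinuousFunction Z B) :
    ∃ g : BoundedContinuousFunction Z A, ∀ z, T (g z) = f z := by
  have step : ∀ f : BoundedContinuousFunction Z B, ∃ g : BoundedContinuousFunction Z A,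
      ‖g‖ ≤ ‖f‖ ∧ ‖f - T.compLeftContinuousBounded Z g‖ ≤ ‖f‖ / 2 := by
    intro f
    by_cases h0 : f = 0
    · exact ⟨0, by simp, by simp [h0]⟩
    have hf : 0 < ‖f‖ / 2 := half_pos (norm_pos_iff.2 h0)
    obtain ⟨g, hg⟩ := exists_continuous_forall_mem_convex_of_local_const
      (t := fun z : Z => closedBall (0 : A) ‖f‖ ∩ T ⁻¹' closedBall (f z) (‖f‖ / 2))
      (fun z => (convex_closedBall _ _).inter ((convex_closedBall _ _).linear_preimage
        (T : A →ₗ[ℝ] B))) (fun z => by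
        obtain ⟨a, h1, h2⟩ := hT (f z)
        refine ⟨a, ?_⟩
        filter_upwards [f.continuous.continuousAt (closedBall_mem_nhds (f z) hf)] with y hy
        refine ⟨mem_closedBall_zero_iff.2 (h2.trans (f.norm_coe_le_norm z)), ?_⟩
        rw [mem_preimage, h1, mem_closedBall_comm]
        exact hy)
    refine ⟨BoundedContinuousFunction.ofNormedAddCommGroup g g.continuous ‖f‖
      fun z => mem_closedBall_zero_iff.1 (hg z).1,
      BoundedContinuousFunction.norm_ofNormedAddCommGroup_le _ (norm_nonneg _) _, ?_⟩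
    refine (BoundedContinuousFunction.norm_le hf.le).2 fun z => ?_
    have := (hg z).2
    rw [mem_preimage, mem_closedBall_comm, mem_closedBall, dist_eq_norm] at this
    exact this
  choose G h1 h2 using step
  set S := T.compLeftContinuousBounded Z with hS
  let r : ℕ → BoundedContinuousFunction Z B := fun n => (fun r => r - S (G r))^[n] f
  have hr : ∀ n, r (n + 1) = r n - S (G (r n)) := fun n => Function.iterate_succ_apply' _ _ _
  have hn : ∀ n, ‖r n‖ ≤ (1 / 2) ^ n * ‖f‖ := by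
    intro n
    induction n with
    | zero => simp [r]
    | succ n ih =>
      rw [hr, pow_succ]
      linarith [h2 (r n)]
  have hs : Summable fun n => G (r n) :=
    Summable.of_norm_bounded (summable_geometric_two.mul_right ‖f‖) fun n => (h1 _).trans (hn n)
  have l1 := (hs.hasSum.mapL S).tendsto_sum_nat
  have e : ∀ n, ∑ i ∈ Finset.range n, S (G (r i)) = f - r n := by
    intro n
    induction n with
    | zero => simp [r]
    | succ n ih => rw [Finset.sum_range_succ, ih, hr]; abel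
  have l2 : Tendsto r atTop (𝓝 0) := by
    rw [tendsto_zero_iff_norm_tendsto_zero]
    have := (tendsto_pow_atTop_nhds_zero_of_lt_one (r := (1 / 2 : ℝ)) (by norm_num)
      (by norm_num)).mul_const ‖f‖
    rw [zero_mul] at this
    exact squeeze_zero (fun n => norm_nonneg _) hn this
  simp only [e] at l1
  have := tendsto_nhds_unique l1 (l2.const_sub f)
  rw [sub_zero] at this
  exact ⟨_, fun z => congrArg (fun F : BoundedContinuousFunction Z B => F z) this⟩

end Pool.Agent.H.MP_471c81_an
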