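import Pool.Agent.H.MP_471c81_an.A

set_option autoImplicit false
open Filter Topology Set Metric

namespace Pool.Agent.H.MP_471c81_an

variable {E : Type*} [NormedAddCommGroup E] [NormedSpace ℝ E]

theorem exists_xm (g : StrongDual ℝ E) : ∃ x : E, ‖g‖ * ‖x‖ ≤ 2 ∧ g - g x • g = 0 := by
  by_cases h : g = 0
  · exact ⟨0, by simp, by simp [h]⟩
  have hn := norm_pos_iff.2 h
  obtain ⟨x, h1, h2⟩ := g.exists_lt_apply_of_lt_opNorm (half_lt_self hn)
  have h3 : 0 < ‖g x‖ := by linarith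
  refine ⟨(g x)⁻¹ • x, ?_, ?_⟩
  · rw [norm_smul, norm_inv, mul_left_comm, inv_mul_le_iff₀ h3]
    nlinarith [norm_nonneg x]
  · rw [map_smul, smul_eq_mul, inv_mul_cancel₀ (norm_pos_iff.1 h3), one_smul, sub_self]

theorem sq_mid (p : Seminorm ℝ E) (f g : E) :
    p ((1 / 2 : ℝ) • (f + g)) ^ 2 + (p f - p g) ^ 2 / 4 ≤ (p f ^ 2 + p g ^ 2) / 2 := by
  have h1 : p ((1 / 2 : ℝ) • (f + g)) ≤ (p f + p g) / 2 := by
    rw [map_smul_eq_mul, Real.norm_of_nonneg (by norm_num)]
    linarith [map_add_le_add p f g]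
  have h2 := pow_le_pow_left₀ (apply_nonneg p _) h1 2
  nlinarith

theorem sq_convex (p : Seminorm ℝ E) : ConvexOn ℝ univ fun f => p f ^ 2 :=
  p.convexOn.pow (fun f _ => apply_nonneg p f) 2

theorem smooth_approx [TopologicalSpace.SeparableSpace (StrongDual ℝ E)]
    (hrefl : Function.Surjective (NormedSpace.inclusionInDoubleDual ℝ E)) (N : Seminorm ℝ E)
    {c C η : ℝ} (hc : 0 < c) (hC : 0 < C) (h1 : ∀ x, c * ‖x‖ ≤ N x) (h2 : ∀ x, N x ≤ C * ‖x‖)
    (hη : 0 < η) (hη1 : η < 1) : ∃ p : Seminorm ℝ E, (∀ x, (1 - η) * N x ≤ p x) ∧ (∀ x, p x ≤ N x) ∧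
      ∀ x, x ≠ 0 → DifferentiableAt ℝ p x := by
  obtain ⟨D, D1, D2⟩ := supSem (NormedSpace.inclusionInDoubleDual ℝ E '' {x | N x ≤ 1})
    ⟨_, 0, by simp, rfl⟩ (by
      rintro _ ⟨x, hx, rfl⟩
      exact ⟨-x, by simpa using hx, map_neg _ _⟩) c⁻¹ (by
      rintro _ ⟨x, hx, rfl⟩
      refine (NormedSpace.double_dual_bound ℝ E x).trans ?_
      rw [← one_div, le_div_iff₀ hc]
      linarith [h1 x, show N x ≤ 1 from hx])
  have D3 : ∀ f : StrongDual ℝ E, D f ≤ c⁻¹ * ‖f‖ := fun f => D2 _ _ (by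
    rintro _ ⟨x, hx, rfl⟩
    refine (le_abs_self _).trans ((f.le_opNorm x).trans ?_)
    rw [mul_comm]
    refine mul_le_mul_of_nonneg_right ?_ (norm_nonneg _)
    rw [← one_div, le_div_iff₀ hc]
    linarith [h1 x, show N x ≤ 1 from hx])
  have D4 : ∀ f : StrongDual ℝ E, D f ≤ 1 → ∀ x, f x ≤ N x := fun f hf x => by
    by_cases hx : x = 0
    · simp [hx]
    have hN : 0 < N x := (mul_pos hc (norm_pos_iff.2 hx)).trans_le (h1 x)
    have := (D1 _ ⟨(N x)⁻¹ • x, by
      simp only [mem_ofPred_eq, map_smul_eq_mul, norm_inv, Real.norm_of_nonneg hN.le]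
      rw [inv_mul_cancel₀ hN.ne'], rfl⟩ f).trans hf
    rw [NormedSpace.dual_def, map_smul, smul_eq_mul, inv_mul_le_iff₀ hN, mul_one] at this
    exact this
  obtain ⟨g, hg⟩ := TopologicalSpace.exists_dense_seq (StrongDual ℝ E)
  choose xm hx1 hx2 using fun m => exists_xm (g m)
  let T : ℕ → StrongDual ℝ E →L[ℝ] StrongDual ℝ E := fun m =>
    ContinuousLinearMap.id ℝ _ - (ContinuousLinearMap.apply ℝ ℝ (xm m)).smulRight (g m)
  let σ : ℕ → Seminorm ℝ (StrongDual ℝ E) := fun m => (normSeminorm ℝ _).comp (T m).toLinearMap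
  have σ0 : ∀ m f, σ m f = ‖f - f (xm m) • g m‖ := fun m f => rfl
  have σ1 : ∀ m f, σ m f ≤ 3 * ‖f‖ := fun m f => by
    rw [σ0]
    refine (norm_sub_le _ _).trans ?_
    rw [norm_smul]
    have a1 := mul_le_mul_of_nonneg_right (f.le_opNorm (xm m)) (norm_nonneg (g m))
    have a2 := mul_le_mul_of_nonneg_left (hx1 m) (norm_nonneg f)
    nlinarith
  set κ : ℝ := η / (18 * C ^ 2) with hκ
  have hκ0 : 0 < κ := by positivity
  let Φ : ℕ → StrongDual ℝ E → ℝ := fun n f =>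
    D f ^ 2 + ∑ m ∈ Finset.range n, κ * (1 / 2) ^ m * σ m f ^ 2
  have Φs : ∀ n (r : ℝ) f, Φ n (r • f) = r ^ 2 * Φ n f := fun n r f => by
    simp only [Φ, map_smul_eq_mul, mul_pow, Real.norm_eq_abs, sq_abs, mul_add, Finset.mul_sum]
    congr 1
    exact Finset.sum_congr rfl fun m _ => by ring
  have Φm : ∀ f, Monotone fun n => Φ n f := fun f => monotone_nat_of_le_succ fun n => by
    simp only [Φ, Finset.sum_range_succ]
    have : 0 ≤ κ * (1 / 2) ^ n * σ n f ^ 2 := by positivity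
    linarith
  let B : Set (StrongDual ℝ E) := {f | ∀ n, Φ n f ≤ 1}
  have B1 : ∀ f ∈ B, ∀ x, f x ≤ N x := fun f hf => D4 f (by
    have := hf 0
    simp only [Φ, Finset.range_zero, Finset.sum_empty, add_zero] at this
    nlinarith [apply_nonneg D f])
  have B2 : ∀ f ∈ B, ‖f‖ ≤ C := fun f hf => norm_le_of hC.le fun y => (B1 f hf y).trans (h2 y)
  have B3 : ∀ f ∈ B, -f ∈ B := fun f hf n => by
    rw [← neg_one_smul ℝ f, Φs]
    simpa using hf n
  have B0 : (0 : StrongDual ℝ E) ∈ B := fun n => by simp [Φ]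
  have Bc : IsClosed B := by
    simp only [B, ofPred_forall]
    refine isClosed_iInter fun n => isClosed_le ?_ continuous_const
    have a1 := sem_cont D D3
    have a2 := fun m => sem_cont (σ m) (σ1 m)
    exact (a1.pow 2).add (continuous_finsetSum _ fun m _ => continuous_const.mul ((a2 m).pow 2))
  have Bv : Convex ℝ B := by
    simp only [B, ofPred_forall]
    refine convex_iInter fun n => ?_
    have : ConvexOn ℝ univ (Φ n) := by
      refine (sq_convex D).add ?_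
      induction n with
      | zero => simpa using convexOn_const 0 convex_univ
      | succ n ih =>
        simp only [Finset.sum_range_succ]
        exact ih.add ((sq_convex (σ n)).smul (c := κ * (1 / 2) ^ n) (by positivity))
    simpa using this.convex_le 1
  obtain ⟨p, p1, p2⟩ := supSem B ⟨0, B0⟩ B3 C B2
  have p3 : ∀ x, p x ≤ N x := fun x => p2 _ _ fun f hf => B1 f hf x
  have p4 : ∀ x, (1 - η) * N x ≤ p x := fun x => by
    obtain ⟨f, a1, a2⟩ := hb N h2 x
    have a3 : ‖f‖ ≤ C := norm_le_of hC.le fun y => (a2 y).trans (h2 y)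
    have a4 : D f ≤ 1 := D2 _ _ (by
      rintro _ ⟨y, hy, rfl⟩
      exact (a2 y).trans hy)
    have a5 : (1 - η) • f ∈ B := fun n => by
      rw [Φs]
      have b1 : ∑ m ∈ Finset.range n, κ * (1 / 2) ^ m * σ m f ^ 2 ≤
          ∑ m ∈ Finset.range n, κ * (9 * C ^ 2) * (1 / 2) ^ m := Finset.sum_le_sum fun m _ => by
        have := pow_le_pow_left₀ (apply_nonneg _ _) ((σ1 m f).trans
          (mul_le_mul_of_nonneg_left a3 (by norm_num))) 2
        have := mul_le_mul_of_nonneg_left this (show 0 ≤ κ * (1 / 2) ^ m by positivity)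
        linarith
      rw [← Finset.mul_sum] at b1
      have b2 := mul_le_mul_of_nonneg_left (sum_geometric_two_le n)
        (show 0 ≤ κ * (9 * C ^ 2) by positivity)
      have b3 : κ * (9 * C ^ 2) * 2 = η := by rw [hκ]; field_simp; ring
      have b4 : Φ n f ≤ 1 + η := by
        have := pow_le_one₀ (apply_nonneg D f) a4 (n := 2)
        simp only [Φ]
        linarith
      have := mul_le_mul_of_nonneg_left b4 (sq_nonneg (1 - η))
      nlinarith [mul_pos hη hη]
    have := p1 _ a5 x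
    rwa [_root_.smul_apply, a1] at this
  refine ⟨p, p4, p3, fun x hx => ?_⟩
  have hp0 : 0 < p x :=
    (mul_pos (by linarith) ((mul_pos hc (norm_pos_iff.2 hx)).trans_le (h1 x))).trans_le (p4 x)
  obtain ⟨f0, a1, a2⟩ := hb p (fun y => (p3 y).trans (h2 y)) x
  have a3 : f0 ∈ B := by
    by_contra hc
    obtain ⟨F, u, b1, b2⟩ := geometric_hahn_banach_closed_point Bv Bc hc
    obtain ⟨y, rfl⟩ := hrefl F
    have := p2 y u fun f hf => (b1 f hf).le
    have := a2 y
    rw [NormedSpace.dual_def] at b2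
    linarith
  refine (smulyan B C B2 p p1 p2 x f0 a3 a1.symm fun ε hε => ?_).differentiableAt
  have l1 : ContinuousAt (fun e : ℝ => 5 * e + 2 / p x * (e + 5 * e * ‖x‖) * (C + e)) 0 := by
    fun_prop
  have l2 : ContinuousAt (fun e : ℝ => e * ‖x‖) 0 := by fun_prop
  obtain ⟨e, ⟨e1, e2⟩, e0⟩ := ((((l1.eventually_lt_const (by simpa using hε)).and
    (l2.eventually_lt_const (u := p x / 2) (by simpa using hp0))).filter_mono
      (nhdsWithin_le_nhds (s := Ioi 0))).and self_mem_nhdsWithin).exists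
  have e0' : 0 < e := e0
  obtain ⟨m, hm⟩ := hg.exists_dist_lt f0 e0'
  rw [dist_eq_norm] at hm
  set γ : ℝ := min (κ * (1 / 2) ^ m * e ^ 2 / 4) 1 with hγ
  have hγ0 : 0 < γ := lt_min (by positivity) one_pos
  have hγ1 : γ ≤ 1 := min_le_right _ _
  refine ⟨min e (γ * p x / 2), lt_min e0' (by positivity), fun f hf hfx => ?_⟩
  have c1 : p x - e ≤ f x := by linarith [min_le_left e (γ * p x / 2)]
  have c2 : p x - γ * p x / 2 ≤ f x := by linarith [min_le_right e (γ * p x / 2)]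
  have c3 : σ m f0 ≤ 3 * e := by
    have d1 := map_add_le_add (σ m) (f0 - g m) (g m)
    rw [sub_add_cancel, σ0 m (g m), hx2, norm_zero] at d1
    linarith [σ1 m (f0 - g m)]
  have c4 : σ m f ≤ 4 * e := by
    by_contra hc
    push Not at hc
    have d1 : ∀ n, Φ n ((1 / 2 : ℝ) • (f + f0)) ≤ 1 - γ := fun n => by
      refine (Φm _ (le_max_left n (m + 1))).trans ?_
      have d2 := hf (max n (m + 1))
      have d3 := a3 (max n (m + 1))
      have d4 := sq_mid D f f0
      have d5 : ∑ i ∈ Finset.range (max n (m + 1)),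
          (κ * (1 / 2) ^ i * σ i ((1 / 2 : ℝ) • (f + f0)) ^ 2
            + κ * (1 / 2) ^ i * ((σ i f - σ i f0) ^ 2 / 4)) ≤
          ∑ i ∈ Finset.range (max n (m + 1)),
            (κ * (1 / 2) ^ i * σ i f ^ 2 + κ * (1 / 2) ^ i * σ i f0 ^ 2) / 2 :=
        Finset.sum_le_sum fun i _ => by
          have := mul_le_mul_of_nonneg_left (sq_mid (σ i) f f0)
            (show 0 ≤ κ * (1 / 2) ^ i by positivity)
          linarith
      rw [Finset.sum_add_distrib, ← Finset.sum_div, Finset.sum_add_distrib] at d5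
      have d6 := Finset.single_le_sum (f := fun i => κ * (1 / 2) ^ i * ((σ i f - σ i f0) ^ 2 / 4))
        (s := Finset.range (max n (m + 1))) (fun i _ => by positivity)
        (Finset.mem_range.2 ((Nat.lt_succ_self m).trans_le (le_max_right _ _)))
      have d7 : e ^ 2 ≤ (σ m f - σ m f0) ^ 2 := pow_le_pow_left₀ e0'.le (by linarith) 2
      have d8 := mul_le_mul_of_nonneg_left d7 (show 0 ≤ κ * (1 / 2) ^ m by positivity)
      have d9 : γ ≤ κ * (1 / 2) ^ m * e ^ 2 / 4 := min_le_left _ _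
      simp only [Φ] at d2 d3 ⊢
      nlinarith [sq_nonneg (D f - D f0)]
    have d2 : (1 - γ / 2)⁻¹ • ((1 / 2 : ℝ) • (f + f0)) ∈ B := fun n => by
      rw [Φs, inv_pow, inv_mul_le_iff₀ (pow_pos (by linarith) 2)]
      nlinarith [d1 n]
    have d3 := p1 _ d2 x
    rw [_root_.smul_apply, _root_.smul_apply, _root_.add_apply, a1, smul_eq_mul, smul_eq_mul,
      inv_mul_le_iff₀ (by linarith)] at d3
    nlinarith [mul_pos hγ0 hp0]
  rw [σ0] at c4
  set t := f (xm m)
  have hn := norm_nonneg x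
  have c5 : |(f - t • g m) x| ≤ 4 * e * ‖x‖ :=
    ((f - t • g m).le_opNorm x).trans (mul_le_mul_of_nonneg_right c4 hn)
  have c6 : |(f0 - g m) x| ≤ e * ‖x‖ :=
    ((f0 - g m).le_opNorm x).trans (mul_le_mul_of_nonneg_right hm.le hn)
  rw [_root_.sub_apply, _root_.smul_apply, smul_eq_mul, abs_le] at c5
  rw [_root_.sub_apply, a1, abs_le] at c6
  have c7 := p1 f hf x
  have c8 : |t - 1| * (p x / 2) ≤ e + 5 * e * ‖x‖ := by
    have d1 : |(t - 1) * g m x| ≤ e + 5 * e * ‖x‖ := by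
      rw [abs_le]; constructor <;> nlinarith
    rw [abs_mul] at d1
    refine le_trans (mul_le_mul_of_nonneg_left ?_ (abs_nonneg _)) d1
    exact le_trans (by linarith) (le_abs_self _)
  have c9 : |t - 1| ≤ 2 / p x * (e + 5 * e * ‖x‖) := by
    rw [div_mul_eq_mul_div, le_div_iff₀ hp0]
    linarith
  have c10 : ‖g m‖ ≤ C + e := by
    have := norm_sub_le f0 (f0 - g m)
    rw [sub_sub_cancel] at this
    linarith [B2 f0 a3]
  rw [show f - f0 = (f - t • g m) + (t - 1) • g m - (f0 - g m) by ext z; simp; ring]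
  have c11 := norm_sub_le ((f - t • g m) + (t - 1) • g m) (f0 - g m)
  have c12 := norm_add_le (f - t • g m) ((t - 1) • g m)
  rw [norm_smul, Real.norm_eq_abs] at c12
  have c13 := mul_le_mul c9 c10 (norm_nonneg _) ((abs_nonneg _).trans c9)
  linarith

theorem exists_R (Y : Submodule ℝ E) (N : Seminorm ℝ Y) {c C : ℝ} (hc : 0 < c) (hC : 0 < C)
    (h1 : ∀ y, c * ‖y‖ ≤ N y) (h2 : ∀ y, N y ≤ C * ‖y‖)
    (hd : ∀ y : Y, y ≠ 0 → DifferentiableAt ℝ N y) :
    ∃ (R : Seminorm ℝ E) (M : ℝ), 0 < M ∧ (∀ x, c / 2 * ‖x‖ ≤ R x) ∧ (∀ x, R x ≤ M * ‖x‖) ∧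
      (∀ y : Y, R y = N y) ∧ ∀ y : Y, y ≠ 0 → ∃ f : StrongDual ℝ E, (∀ x, f x ≤ R x) ∧
        R y = f y ∧ HasFDerivAt R f (y : E) := by
  let U : Set (StrongDual ℝ Y) := {u | ∀ y, u y ≤ N y}
  have U1 : ∀ u ∈ U, -u ∈ U := fun u hu y => by
    have := hu (-y)
    rwa [map_neg, map_neg_eq_map] at this
  let T : StrongDual ℝ E →L[ℝ] StrongDual ℝ Y :=
    (ContinuousLinearMap.compL ℝ Y E ℝ).flip Y.subtypeL
  have T0 : ∀ f (y : Y), T f y = f y := fun f y => rfl
  obtain ⟨g, hg⟩ := bartle (Z := U) T (fun u => by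
    obtain ⟨a, a1, a2⟩ := exists_extension_norm_eq Y u
    exact ⟨a, by ext y; exact a1 y, a2.le⟩)
    (BoundedContinuousFunction.ofNormedAddCommGroup Subtype.val continuous_subtype_val C
      fun u => norm_le_of hC.le fun y => (u.2 y).trans (h2 y))
  let ng : U → U := fun u => ⟨-u.1, U1 _ u.2⟩
  have hng : Continuous ng := continuous_subtype_val.neg.subtype_mk _
  let s : U → StrongDual ℝ E := fun u => (1 / 2 : ℝ) • (g u - g (ng u))
  have s1 : Continuous s := (g.continuous.sub (g.continuous.comp hng)).const_smul (1 / 2 : ℝ)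
  have s2 : ∀ u (y : Y), s u y = u.1 y := fun u y => by
    have a1 : g u y = u.1 y := congrArg (fun F : StrongDual ℝ Y => F y) (hg u)
    have a2 : g (ng u) y = -u.1 y := congrArg (fun F : StrongDual ℝ Y => F y) (hg (ng u))
    simp only [s, _root_.smul_apply, _root_.sub_apply, a1, a2, smul_eq_mul]
    ring
  have s3 : ∀ u, -s u = s (ng u) := fun u => by
    have : ng (ng u) = u := Subtype.ext (neg_neg _)
    simp only [s, this]
    ext z
    simp
    ring
  have s4 : ∀ u, ‖s u‖ ≤ ‖g‖ + c := fun u => by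
    simp only [s]
    rw [norm_smul, Real.norm_of_nonneg (by norm_num)]
    linarith [norm_sub_le (g u) (g (ng u)), g.norm_coe_le_norm u, g.norm_coe_le_norm (ng u)]
  let A : Set (StrongDual ℝ E) := range s ∪ closedBall 0 (c / 2)
  have A1 : ∀ f ∈ A, ‖f‖ ≤ ‖g‖ + c := by
    rintro f (⟨u, rfl⟩ | hf)
    · exact s4 u
    · linarith [mem_closedBall_zero_iff.1 hf, norm_nonneg g]
  obtain ⟨R, R1, R2⟩ := supSem A ⟨0, Or.inr (mem_closedBall_self (by linarith))⟩ (by
    rintro f (⟨u, rfl⟩ | hf)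
    · exact Or.inl ⟨ng u, (s3 u).symm⟩
    · exact Or.inr (by simpa using hf)) _ A1
  have A2 : ∀ f ∈ closedBall (0 : StrongDual ℝ E) (c / 2), ∀ y : Y, f y ≤ N y / 2 := fun f hf y => by
    have a1 := (le_abs_self _).trans ((f.le_opNorm y).trans
      (mul_le_mul_of_nonneg_right (mem_closedBall_zero_iff.1 hf) (norm_nonneg _)))
    have a2 : c * ‖(y : E)‖ ≤ N y := h1 y
    linarith
  have R3 : ∀ y : Y, R y = N y := fun y => by
    refine le_antisymm (R2 _ _ ?_) ?_
    · rintro f (⟨u, rfl⟩ | hf)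
      · rw [s2]; exact u.2 y
      · linarith [A2 f hf y, apply_nonneg N y]
    · obtain ⟨u, a1, a2⟩ := hb N h2 y
      rw [← a1, ← s2 ⟨u, a2⟩ y]
      exact R1 _ (Or.inl ⟨_, rfl⟩) _
  refine ⟨R, ‖g‖ + c, by positivity, fun x => ?_, fun x => R2 _ _ fun f hf => ?_, R3,
    fun y hy => ?_⟩
  · obtain ⟨f, a1, a2⟩ := exists_dual_vector'' ℝ x
    have := R1 ((c / 2) • f) (Or.inr (by
      rw [mem_closedBall_zero_iff, norm_smul, Real.norm_of_nonneg (by linarith)]
      nlinarith)) x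
    rwa [_root_.smul_apply, a2] at this
  · exact (le_abs_self _).trans ((f.le_opNorm x).trans
      (mul_le_mul_of_nonneg_right (A1 f hf) (norm_nonneg _)))
  · obtain ⟨u, a1, a2⟩ := hb N h2 y
    have a3 : R y = s ⟨u, a2⟩ y := by rw [s2, R3, a1]
    refine ⟨s ⟨u, a2⟩, R1 _ (Or.inl ⟨_, rfl⟩), a3,
      smulyan A _ A1 R R1 R2 y _ (Or.inl ⟨_, rfl⟩) a3 fun ε hε => ?_⟩
    obtain ⟨r, hr, b1⟩ := (Metric.continuousAt_iff (f := s) (a := ⟨u, a2⟩)).1 s1.continuousAt ε hε
    obtain ⟨δ, hδ, b2⟩ := smulyan' N y (hd y hy) u a2 a1.symm (r / 2) (by linarith)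
    have hN : 0 < N y := (mul_pos hc (norm_pos_iff.2 hy)).trans_le (h1 y)
    refine ⟨min δ (N y / 4), lt_min hδ (by linarith), ?_⟩
    rintro f (⟨v, rfl⟩ | hf) hfy
    · rw [s2, R3] at hfy
      have := b2 v.1 v.2 (by linarith [min_le_left δ (N y / 4)])
      rw [← dist_eq_norm]
      refine (b1 ?_).le
      exact (dist_eq_norm v.1 u).trans_lt (by linarith)
    · rw [R3] at hfy
      linarith [A2 f hf y, min_le_right δ (N y / 4)]

end Pool.Agent.H.MP_471c81_an
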