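import Pool.Agent.H.MP_471c81_an.B

set_option autoImplicit false
open Filter Topology Set Metric

namespace Pool.Agent.H.MP_471c81_an

variable {E : Type*} [NormedAddCommGroup E] [NormedSpace ℝ E]

noncomputable def ph (t : ℝ) : ℝ := max t 0 ^ 2

theorem ph_diff : Differentiable ℝ ph := by
  intro t
  rcases lt_trichotomy t 0 with h | rfl | h
  · refine (differentiableAt_const (0 : ℝ)).congr_of_eventuallyEq ?_
    filter_upwards [Iio_mem_nhds h] with s hs
    simp [ph, max_eq_right (show s ≤ 0 from le_of_lt (mem_Iio.1 hs))]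
  · refine HasDerivAt.differentiableAt (f' := 0) ?_
    rw [hasDerivAt_iff_isLittleO_nhds_zero, Asymptotics.isLittleO_iff]
    intro c hc
    filter_upwards [ball_mem_nhds (0 : ℝ) hc] with s hs
    rw [mem_ball_zero_iff, Real.norm_eq_abs] at hs
    simp only [ph, zero_add, max_self, smul_zero, sub_zero, Real.norm_eq_abs]
    rw [zero_pow two_ne_zero, sub_zero, abs_of_nonneg (sq_nonneg _)]
    have h1 : max s 0 ≤ |s| := max_le (le_abs_self s) (abs_nonneg s)
    have h2 := pow_le_pow_left₀ (le_max_right s 0) h1 2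
    nlinarith [abs_nonneg s]
  · refine (differentiableAt_id.pow 2).congr_of_eventuallyEq ?_
    filter_upwards [Ioi_mem_nhds h] with s hs
    simp [ph, max_eq_left (show 0 ≤ s from le_of_lt (mem_Ioi.1 hs))]

noncomputable def mm (η a b : ℝ) : ℝ := (a + b) / 2 +
  ((a - b) ^ 2 + (η * (a + b)) ^ 2 - ph (a - b - η * (a + b)) - ph (b - a - η * (a + b))) /
    (4 * (η * (a + b)))

noncomputable def ll (η s a b : ℝ) : ℝ :=
  ((1 + s) / 2 + (1 - s ^ 2) * η / 4) * a + ((1 - s) / 2 + (1 - s ^ 2) * η / 4) * b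

theorem mm_left {η a b : ℝ} (hη : 0 < η) (ha : 0 ≤ a) (hb : 0 ≤ b) (h : η * (a + b) ≤ a - b) :
    mm η a b = a := by
  have hv : 0 ≤ η * (a + b) := by positivity
  rcases hv.eq_or_lt with h0 | h0
  · have : a + b = 0 := by simpa [hη.ne'] using h0.symm
    rw [mm, ← h0, this]
    simp
    linarith
  · rw [mm, ph, ph, max_eq_left (by linarith), max_eq_right (by linarith)]
    generalize η * (a + b) = v at *
    field_simp
    ring

theorem mm_comm (η a b : ℝ) : mm η a b = mm η b a := by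
  unfold mm
  rw [add_comm b a]
  ring

theorem mm_mid {η a b : ℝ} (h1 : a - b ≤ η * (a + b)) (h2 : b - a ≤ η * (a + b)) :
    mm η a b = (a + b) / 2 + ((a - b) ^ 2 + (η * (a + b)) ^ 2) / (4 * (η * (a + b))) := by
  rw [mm, ph, ph, max_eq_right (by linarith), max_eq_right (by linarith)]
  simp

theorem ll_le {η a b s : ℝ} (hη : 0 < η) (ha : 0 ≤ a) (hb : 0 ≤ b) (h1 : -1 ≤ s) (h2 : s ≤ 1) :
    ll η s a b ≤ mm η a b := by
  have hv : 0 ≤ η * (a + b) := by positivity
  have e : ll η s a b = (a + b) / 2 + s * (a - b) / 2 + (1 - s ^ 2) * (η * (a + b)) / 4 := by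
    unfold ll; ring
  rw [e]
  by_cases c1 : η * (a + b) ≤ a - b
  · rw [mm_left hη ha hb c1]
    generalize η * (a + b) = v at *
    nlinarith [mul_nonneg (sub_nonneg.2 h2) (sub_nonneg.2 c1),
      mul_nonneg (mul_nonneg (sub_nonneg.2 h2) (sub_nonneg.2 h2)) hv]
  by_cases c2 : η * (b + a) ≤ b - a
  · rw [mm_comm, mm_left hη hb ha c2]
    rw [add_comm b a] at c2
    generalize η * (a + b) = v at *
    nlinarith [mul_nonneg (sub_nonneg.2 h1) (sub_nonneg.2 c2),
      mul_nonneg (mul_nonneg (sub_nonneg.2 h1) (sub_nonneg.2 h1)) hv]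
  rw [add_comm b a] at c2
  push Not at c1 c2
  rw [mm_mid c1.le c2.le]
  generalize η * (a + b) = v at *
  have h0 : 0 < v := by linarith
  rw [add_assoc, add_le_add_iff_left, le_div_iff₀ (by positivity)]
  nlinarith [sq_nonneg (a - b - s * v)]

theorem exists_ll {η a b : ℝ} (hη : 0 < η) (ha : 0 ≤ a) (hb : 0 ≤ b) :
    ∃ s, -1 ≤ s ∧ s ≤ 1 ∧ mm η a b = ll η s a b := by
  by_cases c1 : η * (a + b) ≤ a - b
  · exact ⟨1, by norm_num, le_rfl, by rw [mm_left hη ha hb c1, ll]; ring⟩
  by_cases c2 : η * (b + a) ≤ b - a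
  · exact ⟨-1, le_rfl, by norm_num, by rw [mm_comm, mm_left hη hb ha c2, ll]; ring⟩
  rw [add_comm b a] at c2
  push Not at c1 c2
  have h0 : 0 < η * (a + b) := by linarith
  refine ⟨(a - b) / (η * (a + b)), by rw [le_div_iff₀ h0]; linarith,
    by rw [div_le_iff₀ h0]; linarith, ?_⟩
  have e : ∀ s, ll η s a b = (a + b) / 2 + s * (a - b) / 2 + (1 - s ^ 2) * (η * (a + b)) / 4 :=
    fun s => by unfold ll; ring
  rw [mm_mid c1.le c2.le, e]
  generalize η * (a + b) = v at *
  field_simp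
  ring

theorem ll_mono {η s a b a' b' : ℝ} (hη : 0 < η) (h1 : -1 ≤ s) (h2 : s ≤ 1) (ha : a ≤ a')
    (hb : b ≤ b') : ll η s a b ≤ ll η s a' b' := by
  have : 0 ≤ (1 - s ^ 2) * η / 4 := by
    have : 0 ≤ 1 - s ^ 2 := by nlinarith
    positivity
  unfold ll
  exact add_le_add (mul_le_mul_of_nonneg_left ha (by linarith))
    (mul_le_mul_of_nonneg_left hb (by linarith))

theorem smooth_max (P p : Seminorm ℝ E) {η : ℝ} (hη : 0 < η) : ∃ Q : Seminorm ℝ E,
    (∀ x, P x ≤ Q x) ∧ (∀ x, p x ≤ Q x) ∧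
    (∀ x b, P x ≤ b → p x ≤ b → Q x ≤ (1 + η / 2) * b) ∧
    (∀ x, η * (P x + p x) ≤ P x - p x → Q x = P x) ∧
    ∀ x, 0 < p x → DifferentiableAt ℝ P x → DifferentiableAt ℝ p x → DifferentiableAt ℝ Q x := by
  refine ⟨Seminorm.ofSMulLE (fun x => mm η (P x) (p x)) (by simp [mm]) (fun x y => ?_)
    (fun r x => ?_), fun x => ?_, fun x => ?_, fun x b h1 h2 => ?_,
    fun x h => mm_left hη (apply_nonneg _ _) (apply_nonneg _ _) h, fun x h0 h1 h2 => ?_⟩
  · obtain ⟨s, a1, a2, a3⟩ := exists_ll hη (apply_nonneg P (x + y)) (apply_nonneg p (x + y))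
    have b1 := ll_le hη (apply_nonneg P x) (apply_nonneg p x) a1 a2
    have b2 := ll_le hη (apply_nonneg P y) (apply_nonneg p y) a1 a2
    have b3 := ll_mono hη a1 a2 (map_add_le_add P x y) (map_add_le_add p x y)
    rw [a3]
    unfold ll at *
    linarith
  · obtain ⟨s, a1, a2, a3⟩ := exists_ll hη (apply_nonneg P (r • x)) (apply_nonneg p (r • x))
    have b1 := mul_le_mul_of_nonneg_left
      (ll_le hη (apply_nonneg P x) (apply_nonneg p x) a1 a2) (norm_nonneg r)
    rw [a3, map_smul_eq_mul, map_smul_eq_mul]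
    unfold ll at *
    linarith
  · have := ll_le (s := 1) hη (apply_nonneg P x) (apply_nonneg p x) (by norm_num) le_rfl
    show P x ≤ mm η (P x) (p x)
    simpa [ll] using this
  · have := ll_le (s := -1) hη (apply_nonneg P x) (apply_nonneg p x) le_rfl (by norm_num)
    show p x ≤ mm η (P x) (p x)
    simpa [ll] using this
  · obtain ⟨s, a1, a2, a3⟩ := exists_ll hη (apply_nonneg P x) (apply_nonneg p x)
    have b1 := ll_mono hη a1 a2 h1 h2
    have b2 : 0 ≤ b := (apply_nonneg P x).trans h1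
    show mm η (P x) (p x) ≤ _
    rw [a3]
    refine b1.trans ?_
    unfold ll
    nlinarith [mul_nonneg (mul_nonneg (sq_nonneg s) hη.le) b2]
  · show DifferentiableAt ℝ (fun x => mm η (P x) (p x)) x
    have h3 : 4 * (η * (P x + p x)) ≠ 0 := by
      have := apply_nonneg P x
      positivity
    have := ph_diff
    unfold mm
    fun_prop (disch := exact h3)

theorem main [TopologicalSpace.SeparableSpace (StrongDual ℝ E)]
    (hrefl : Function.Surjective (NormedSpace.inclusionInDoubleDual ℝ E)) (Y : Submodule ℝ E)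
    (hY : IsClosed (Y : Set E)) (N : Seminorm ℝ Y) {c C : ℝ} (hc : 0 < c) (hC : 0 < C)
    (h1 : ∀ y, c * ‖y‖ ≤ N y) (h2 : ∀ y, N y ≤ C * ‖y‖)
    (hd : ∀ y : Y, y ≠ 0 → DifferentiableAt ℝ N y) :
    ∃ M : Seminorm ℝ E, (∃ c C : ℝ, 0 < c ∧ 0 < C ∧ ∀ x, c * ‖x‖ ≤ M x ∧ M x ≤ C * ‖x‖) ∧
      (∀ x, x ≠ 0 → DifferentiableAt ℝ M x) ∧ ∀ y : Y, M (y : E) = N y := by
  obtain ⟨R, M, hM, R1, R2, R3, R4⟩ := exists_R Y N hc hC h1 h2 hd
  let d : Seminorm ℝ E := (normSeminorm ℝ (E ⧸ Y)).comp Y.mkQ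
  have d1 : ∀ x, d x ≤ ‖x‖ := fun x => Submodule.Quotient.norm_mk_le Y x
  have d2 : ∀ y : Y, d y = 0 := fun y => by
    show ‖Y.mkQ y‖ = 0
    rw [Submodule.mkQ_apply, (Submodule.Quotient.mk_eq_zero Y).2 y.2, norm_zero]
  have d3 : ∀ x, x ∉ Y → 0 < d x := fun x hx =>
    norm_pos_iff.2 fun h => hx ((Submodule.Quotient.mk_eq_zero Y).1 h)
  let s : ℕ → ℝ := fun k => (1 / 2) ^ (k + 1)
  have s0 : ∀ k, 0 < s k := fun k => by positivity
  have s1 : ∀ k, s k ≤ 1 / 2 := fun k => by
    simp only [s, pow_succ]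
    exact mul_le_of_le_one_left (by norm_num) (pow_le_one₀ (by norm_num) (by norm_num))
  have s2 : ∀ k, s (k + 1) = s k / 2 := fun k => by simp only [s, pow_succ]; ring
  have s3 : Tendsto s atTop (𝓝 0) :=
    (tendsto_pow_atTop_nhds_zero_of_lt_one (by norm_num) (by norm_num)).comp
      (tendsto_add_atTop_nat 1)
  have s4 : Antitone s := antitone_nat_of_succ_le fun k => by rw [s2]; linarith [s0 k]
  clear_value s
  have hp : ∀ k, ∃ p : Seminorm ℝ E,
      (∀ x, (1 - s k ^ 2 / 8) * ((1 - s k ^ 2) * R x + s k * d x) ≤ p x) ∧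
      (∀ x, p x ≤ (1 - s k ^ 2) * R x + s k * d x) ∧ ∀ x, x ≠ 0 → DifferentiableAt ℝ p x := by
    intro k
    have a0 := s0 k
    have a1 := s1 k
    have a2 : 0 ≤ 1 - s k ^ 2 := by nlinarith
    let Nk : Seminorm ℝ E := NNReal.mk (1 - s k ^ 2) a2 • R + NNReal.mk (s k) a0.le • d
    have e : ∀ x, Nk x = (1 - s k ^ 2) * R x + s k * d x := fun x => rfl
    obtain ⟨p, b1, b2, b3⟩ := smooth_approx hrefl Nk (c := c / 4) (C := M + 1) (η := s k ^ 2 / 8)
      (by linarith) (by linarith) (fun x => by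
        rw [e]
        have := R1 x
        have := mul_nonneg a0.le (apply_nonneg d x)
        have := mul_nonneg hc.le (norm_nonneg x)
        nlinarith [mul_le_mul_of_nonneg_right (show s k ^ 2 ≤ 1 / 2 by nlinarith)
          (apply_nonneg R x)]) (fun x => by
        rw [e]
        have := R2 x
        have := d1 x
        have := apply_nonneg d x
        nlinarith [mul_nonneg (sq_nonneg (s k)) (apply_nonneg R x)]) (by positivity) (by nlinarith)
    exact ⟨p, b1, b2, b3⟩
  choose p p1 p2 p3 using hp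
  have p4 : ∀ k x, x ≠ 0 → 0 < p k x := fun k x hx => by
    have a0 := s0 k
    have a1 := s1 k
    have a2 : 0 < R x := (mul_pos (by linarith) (norm_pos_iff.2 hx)).trans_le (R1 x)
    refine lt_of_lt_of_le (mul_pos (by nlinarith) (add_pos_of_pos_of_nonneg
      (mul_pos (by nlinarith) a2) (mul_nonneg a0.le (apply_nonneg _ _)))) (p1 k x)
  choose Q Q1 Q2 Q3 Q4 Q5 using fun (P : Seminorm ℝ E) (k : ℕ) =>
    smooth_max P (p (k + 1)) (η := s k ^ 2 / 8) (by have := s0 k; positivity)
  let P : ℕ → Seminorm ℝ E := fun k => Nat.rec (p 0) (fun k P => Q P k) k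
  have P0 : P 0 = p 0 := rfl
  have Ps : ∀ k, P (k + 1) = Q (P k) k := fun k => rfl
  clear_value P
  have P1 : ∀ x, Monotone fun k => P k x := fun x => monotone_nat_of_le_succ fun k => by
    rw [Ps]; exact Q1 _ _ _
  have P2 : ∀ k x, p k x ≤ P k x := fun k x => by
    cases k with
    | zero => rw [P0]
    | succ k => rw [Ps]; exact Q2 _ _ _
  have P3 : ∀ k x, x ≠ 0 → DifferentiableAt ℝ (P k) x := fun k x hx => by
    induction k with
    | zero => rw [P0]; exact p3 0 x hx
    | succ k ih => rw [Ps]; exact Q5 _ _ _ (p4 _ x hx) ih (p3 _ x hx)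
  have P4 : ∀ x b, (∀ j, (1 - s j ^ 2 / 2) * R x + 2 * s j * d x ≤ b) →
      ∀ k, P k x ≤ (1 - s k ^ 2 / 8) * b := by
    intro x b hb
    have r0 := apply_nonneg R x
    have d0 := apply_nonneg d x
    have q : ∀ j, p j x ≤ (1 - s j ^ 2 / 2) * b := fun j => by
      have a0 := s0 j
      have a1 := s1 j
      have a2 := mul_le_mul_of_nonneg_left (hb j) (show 0 ≤ 1 - s j ^ 2 / 2 by nlinarith)
      refine (p2 j x).trans (le_trans ?_ a2)
      have a3 : s j ^ 2 ≤ 1 := by nlinarith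
      nlinarith [mul_nonneg (sq_nonneg (s j ^ 2)) r0,
        mul_nonneg (mul_nonneg a0.le d0) (sub_nonneg.2 a3)]
    have b0 : 0 ≤ b := by
      have a0 := s0 0
      have a1 := s1 0
      refine le_trans (add_nonneg (mul_nonneg (by nlinarith) r0) (by positivity)) (hb 0)
    intro k
    induction k with
    | zero =>
      rw [P0]
      nlinarith [q 0, mul_nonneg (sq_nonneg (s 0)) b0]
    | succ k ih =>
      rw [Ps]
      refine (Q3 _ _ _ _ ih ((q (k + 1)).trans (le_of_eq ?_))).trans ?_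
      · rw [s2]; ring
      · rw [s2]
        nlinarith [mul_nonneg (sq_nonneg (s k)) b0, mul_nonneg (sq_nonneg (s k ^ 2)) b0]
  have P5 : ∀ x b, (∀ j, (1 - s j ^ 2 / 2) * R x + 2 * s j * d x ≤ b) → ∀ k, P k x ≤ b := by
    intro x b hb k
    have a1 := P4 x b hb k
    have a2 := s1 k
    have a3 := s0 k
    have a4 : 0 ≤ b := by
      by_contra hc
      have := mul_pos (show 0 < 1 - s k ^ 2 / 8 by nlinarith) (neg_pos.2 (not_le.1 hc))
      linarith [apply_nonneg (P k) x]
    nlinarith [mul_nonneg (sq_nonneg (s k)) a4]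
  have P6 : ∀ x k, P k x ≤ (M + 1) * ‖x‖ := fun x => P5 x _ fun j => by
    have := R2 x
    have := d1 x
    have := apply_nonneg d x
    nlinarith [mul_nonneg (sq_nonneg (s j)) (apply_nonneg R x), s1 j, s0 j]
  have hbdd : BddAbove (range P) := Seminorm.bddAbove_range_iff.2 fun x =>
    ⟨(M + 1) * ‖x‖, by rintro _ ⟨k, rfl⟩; exact P6 x k⟩
  have S1 : ∀ k x, P k x ≤ (⨆ k, P k) x := fun k x => le_ciSup hbdd k x
  have S2 : ∀ x b, (∀ k, P k x ≤ b) → (⨆ k, P k) x ≤ b := fun x b h => by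
    rw [Seminorm.iSup_apply hbdd]
    exact ciSup_le h
  generalize (⨆ k, P k) = S at S1 S2
  have S3 : ∀ x, R x ≤ S x := fun x => by
    have l : Tendsto (fun k => (1 - s k ^ 2 / 8) * ((1 - s k ^ 2) * R x + s k * d x)) atTop
        (𝓝 ((1 - 0 ^ 2 / 8) * ((1 - 0 ^ 2) * R x + 0 * d x))) :=
      (((s3.pow 2).div_const 8).const_sub 1).mul
        ((((s3.pow 2).const_sub 1).mul_const _).add (s3.mul_const _))
    simpa using le_of_tendsto' l fun k => (p1 k x).trans ((P2 k x).trans (S1 k x))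
  have S4 : ∀ y : Y, S y = R y := fun y => le_antisymm (S2 _ _ (P5 _ _ fun j => by
    rw [d2]
    nlinarith [mul_nonneg (sq_nonneg (s j)) (apply_nonneg R (y : E))])) (S3 _)
  have Rc := sem_cont R R2
  refine ⟨S, ⟨c / 2, M + 1, by linarith, by linarith, fun x => ⟨(R1 x).trans (S3 x),
    S2 _ _ (P6 x)⟩⟩, fun x hx => ?_, fun y => (S4 y).trans (R3 y)⟩
  have hR : 0 < R x := (mul_pos (by linarith) (norm_pos_iff.2 hx)).trans_le (R1 x)
  by_cases hxY : x ∈ Y
  · obtain ⟨f, f1, f2, f3⟩ := R4 ⟨x, hxY⟩ (fun h => hx (congrArg Subtype.val h))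
    refine (sandwich S f x (fun y => (f1 y).trans (S3 y)) ((S4 ⟨x, hxY⟩).trans f2)
      fun ε hε => ?_).differentiableAt
    obtain ⟨K, hK⟩ := eventually_atTop.1 (s3.eventually_lt_const (show 0 < ε / 4 by linarith))
    have c1 : ∀ᶠ h in 𝓝 (0 : E), R x / 2 < R (x + h) :=
      ContinuousAt.eventually_lt continuousAt_const
        (Rc.comp (continuous_const.add continuous_id)).continuousAt (by simpa using hR)
    filter_upwards [upper R f x f3 f2 (ε / 2) (by linarith), c1,
      ball_mem_nhds (0 : E) (show 0 < s K * R x / 8 by have := s0 K; positivity)] with h a1 a2 a3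
    rw [mem_ball_zero_iff] at a3
    have a4 : d (x + h) ≤ ‖h‖ := by
      have := map_add_le_add d x h
      rw [d2 ⟨x, hxY⟩] at this
      linarith [d1 h]
    have hn := norm_nonneg h
    refine le_trans (S2 _ (R (x + h) + ε / 2 * ‖h‖) (P5 _ _ fun j => ?_)) (by linarith)
    have a5 := mul_le_mul_of_nonneg_left a4 (s0 j).le
    rcases le_total K j with hj | hj
    · have := mul_le_mul_of_nonneg_right (hK j hj).le hn
      nlinarith [mul_nonneg (sq_nonneg (s j)) (apply_nonneg R (x + h))]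
    · have a6 := mul_le_mul_of_nonneg_right (s4 hj) hR.le
      have a7 : 2 * ‖h‖ ≤ s j / 2 * R (x + h) := by nlinarith [s0 j]
      have := mul_le_mul_of_nonneg_left a7 (s0 j).le
      nlinarith [mul_nonneg hε.le hn]
  · have hd0 := d3 x hxY
    obtain ⟨j, hj⟩ := (s3.eventually_lt_const (show 0 < d x / (8 * R x) by positivity)).exists
    rw [lt_div_iff₀ (by positivity)] at hj
    have dc := sem_cont d (C := 1) (by simpa using d1)
    let g : E → ℝ := fun z => (1 - s j ^ 2 / 8) * ((1 - s j ^ 2) * R z + s j * d z) - R z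
    have gc : Continuous g := by fun_prop
    have g0 : 0 < g x := by
      have a0 := s0 j
      have a1 := s1 j
      have a2 : s j ^ 2 ≤ 1 / 4 := by nlinarith
      have a3 := mul_lt_mul_of_pos_left hj a0
      simp only [g]
      nlinarith [mul_nonneg (sq_nonneg (s j ^ 2)) hR.le, mul_pos a0 hd0,
        mul_le_mul_of_nonneg_right a2 (mul_pos a0 hd0).le]
    obtain ⟨K, hK⟩ := eventually_atTop.1 ((s3.eventually_lt_const
      (show 0 < g x / 2 / ((M + 2) * (‖x‖ + 1)) by positivity)).and (eventually_ge_atTop j))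
    refine (P3 K x hx).congr_of_eventuallyEq ?_
    filter_upwards [gc.continuousAt.eventually_const_lt (half_lt_self g0),
      continuous_norm.continuousAt.eventually_lt_const (lt_add_one ‖x‖)] with z a1 a2
    have key : ∀ k, K ≤ k → P k z = P K z := by
      intro k hk
      induction k, hk using Nat.le_induction with
      | base => rfl
      | succ k hk ih =>
        rw [Ps, Q4 _ _ _ ?_, ih]
        obtain ⟨b1, b2⟩ := hK k hk
        rw [lt_div_iff₀ (by positivity)] at b1
        have b3 : g z + R z ≤ P k z := by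
          simpa [g] using (p1 j z).trans ((P2 j z).trans (P1 z b2))
        have b4 := p2 (k + 1) z
        have b5 := P6 z k
        have b6 := (P2 (k + 1) z).trans (P6 z (k + 1))
        have b7 := s0 k
        have b8 := s1 k
        have hn := norm_nonneg z
        rw [s2] at b4
        have b9 : s k ^ 2 / 8 * (P k z + p (k + 1) z) ≤ s k * ((M + 1) * ‖z‖) := by
          have := mul_le_mul (show s k ^ 2 / 8 ≤ s k / 2 by nlinarith) (add_le_add b5 b6)
            (add_nonneg (apply_nonneg _ _) (apply_nonneg _ _)) (by linarith)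
          linarith
        have b10 := mul_le_mul_of_nonneg_left (d1 z) b7.le
        have b11 := mul_le_mul_of_nonneg_left a2.le (show 0 ≤ s k * (M + 2) by positivity)
        nlinarith [mul_nonneg (sq_nonneg (s k)) (apply_nonneg R z), mul_nonneg b7.le hn]
    refine le_antisymm (S2 _ _ fun k => ?_) (S1 K z)
    rcases le_total K k with hk | hk
    · exact (key k hk).le
    · exact P1 z hk

end Pool.Agent.H.MP_471c81_an
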